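import Pool.Agent.Helper93.HH.Basic

/-!
# HH-CY: every cycle is long compared with `Rs` of its points (E1 from free balls)
-/

open Set
open Pool.Agent.Helper83.OP
open Pool.Agent.Helper93.HH Pool.Agent.Helper93.HH.HD

namespace Pool.Agent.Helper27.HH

/-- the arc of a cycle between the positions `a ≤ b` -/
private theorem arc {V : Type} {N : SimpleGraph V} {y : V} {Z : N.Walk y y} (hZ : Z.IsCycle)
    {a b : ℕ} (hab : a ≤ b) (hb : b < Z.length) :
    ∃ A : N.Walk (Z.getVert a) (Z.getVert b), A.IsPath ∧ A.length = b - a ∧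
      ∀ w ∈ A.support, Nr N b y w := by
  have h1 : (Z.take b).IsPath := hZ.isPath_take hb
  have e1 : (Z.take b).getVert a = Z.getVert a := by
    rw [SimpleGraph.Walk.take_getVert, min_eq_right hab]
  refine ⟨((Z.take b).drop a).copy e1 rfl, ?_, ?_, ?_⟩
  · rw [SimpleGraph.Walk.isPath_copy]
    exact h1.drop a
  · rw [SimpleGraph.Walk.length_copy, SimpleGraph.Walk.drop_length,
      SimpleGraph.Walk.take_length, min_eq_left hb.le]
  · intro w hw
    rw [SimpleGraph.Walk.support_copy] at hw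
    have h2 : w ∈ (Z.take b).support :=
      ((Z.take b).isSubwalk_drop a).support_subset hw
    refine (Nr.of_mem h2).mono ?_
    rw [SimpleGraph.Walk.take_length]
    exact min_le_left _ _

section

variable {V P Q : Type} [Finite V] [Finite P] {D : HD V P Q} {K : ℕ}

private theorem cyc_aux (hD : D.Ok) (hK : 1 ≤ K)
    (he0 : ∀ v (Z : D.N.Walk v v), Z.IsCycle → 200 * K * D.L < Z.length)
    (he1 : ∀ v (Z : D.N.Walk v v), Z.IsCycle → ∀ y ∈ Z.support, ∀ ρ, D.L ≤ ρ → D.Free ρ y →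
      200 * K * ρ < Z.length) :
    ∀ (n : ℕ) (y : V) (Z : D.N.Walk y y), Z.IsCycle → Z.length = n → K * D.Rs y < n := by
  classical
  intro n
  induction n using Nat.strong_induction_on with
  | _ n ih =>
  intro y Z hZ hn
  by_contra hcon
  rw [not_lt] at hcon
  have hL := hD.r_le
  have hr := hD.r_pos
  have h0 := he0 y Z hZ
  rw [hn] at h0
  obtain ⟨ρ, hρ⟩ : ∃ ρ, ρ = min (D.Rs y) n / 64 := ⟨_, rfl⟩
  have hρ1 : 64 * ρ ≤ min (D.Rs y) n := by rw [hρ]; exact Nat.mul_div_le _ _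
  have hρ2 : min (D.Rs y) n < 64 * (ρ + 1) := by
    rw [hρ]
    exact Nat.lt_mul_div_succ _ (by norm_num)
  have hKL : D.L ≤ K * D.L := Nat.le_mul_of_pos_left _ hK
  have h200 : 200 * K * D.L = 200 * (K * D.L) := by ring
  rcases lt_or_ge ρ D.L with hlt | hge
  · -- small
    have h1 : min (D.Rs y) n < 64 * D.L + 64 := by omega
    have h2 : D.Rs y < 64 * D.L + 64 := by omega
    have h3 : K * D.Rs y ≤ K * (64 * D.L + 64) := Nat.mul_le_mul_left _ h2.le
    have h4 : K * (64 * D.L + 64) = 64 * (K * D.L) + 64 * K := by ring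
    have h5 : K * 2 ≤ K * D.L := Nat.mul_le_mul_left _ (by omega)
    omega
  have hR : 64 * ρ ≤ D.Rs y := hρ1.trans (min_le_left _ _)
  have hZn : 64 * ρ ≤ n := hρ1.trans (min_le_right _ _)
  have hsg := D.Rs_le_sg y
  have hRv := D.Rs_le_Rv y
  -- a point of the cycle without pin is a place
  have hfree : ∀ a, a ≤ 8 * ρ → ∃ p, Nr D.N ρ (Z.getVert a) (D.x p) := by
    intro a ha
    by_contra hno
    push Not at hno
    have h1 : Nr D.N a y (Z.getVert a) :=
      ⟨Z.take a, by rw [SimpleGraph.Walk.take_length]; exact min_le_left _ _⟩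
    have h2 := he1 y Z hZ (Z.getVert a) (Z.getVert_mem_support a) ρ hge
      (D.free_of h1 (by omega) hno)
    rw [hn] at h2
    have h3 : 200 * K * ρ = 200 * (K * ρ) := by ring
    have h4 : ρ ≤ K * ρ := Nat.le_mul_of_pos_left _ hK
    rcases min_choice (D.Rs y) n with h5 | h5
    · have h6 : D.Rs y ≤ 128 * ρ := by omega
      have h7 : K * D.Rs y ≤ K * (128 * ρ) := Nat.mul_le_mul_left _ h6
      have h8 : K * (128 * ρ) = 128 * (K * ρ) := by ring
      omega
    · omega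
  -- two points with the same pin
  have hpair : ∀ a b, a + 4 * ρ ≤ b → b ≤ 8 * ρ → ∀ p, Nr D.N ρ (Z.getVert a) (D.x p) →
      Nr D.N ρ (Z.getVert b) (D.x p) → False := by
    intro a b hab hb p ha hb'
    obtain ⟨A, hA, hAl, hAs⟩ := arc hZ (show a ≤ b by omega) (show b < Z.length by omega)
    obtain ⟨q, hq⟩ := ha.trans hb'.symm
    have hq2 := q.length_bypass_le_length
    have hne : A ≠ q.bypass := by
      intro he
      have := congrArg SimpleGraph.Walk.length he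
      omega
    obtain ⟨w, hw, -, c, hc, hcl⟩ := hA.exists_isCycle_length_le_add_of_ne q.bypass_isPath hne
    have h1 := ih c.length (by omega) w c hc rfl
    have h2 := D.Rs_lip (hAs w hw)
    have h3 : D.Rs w ≤ K * D.Rs w := Nat.le_mul_of_pos_left _ hK
    omega
  obtain ⟨p0, hp0⟩ := hfree 0 (by omega)
  obtain ⟨p1, hp1⟩ := hfree (4 * ρ) (by omega)
  obtain ⟨p2, hp2⟩ := hfree (8 * ρ) le_rfl
  have hnr : ∀ a p, a ≤ 8 * ρ → Nr D.N ρ (Z.getVert a) (D.x p) → Nr D.N (9 * ρ) y (D.x p) := by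
    intro a p ha hp
    have h1 : Nr D.N a y (Z.getVert a) :=
      ⟨Z.take a, by rw [SimpleGraph.Walk.take_length]; exact min_le_left _ _⟩
    exact (h1.trans hp).mono (by omega)
  by_cases h01 : p0 = p1
  · subst h01
    exact hpair 0 (4 * ρ) (by omega) (by omega) p0 hp0 hp1
  by_cases h02 : p0 = p2
  · subst h02
    exact hpair 0 (8 * ρ) (by omega) (by omega) p0 hp0 hp2
  by_cases h12 : p1 = p2
  · subst h12
    exact hpair (4 * ρ) (8 * ρ) (by omega) (by omega) p1 hp1 hp2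
  have := D.sg_three h01 h02 h12 (hnr 0 p0 (by omega) hp0) (hnr _ p1 (by omega) hp1)
    (hnr _ p2 (by omega) hp2)
  omega

/-- with E0 and E1 as hypotheses -/
theorem cyc_of (hD : D.Ok) (hK : 1 ≤ K)
    (he0 : ∀ v (Z : D.N.Walk v v), Z.IsCycle → 200 * K * D.L < Z.length)
    (he1 : ∀ v (Z : D.N.Walk v v), Z.IsCycle → ∀ y ∈ Z.support, ∀ ρ, D.L ≤ ρ → D.Free ρ y →
      200 * K * ρ < Z.length) :
    ∀ v (Z : D.N.Walk v v), Z.IsCycle → ∀ y ∈ Z.support, K * D.Rs y < Z.length := by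
  classical
  intro v Z hZ y hy
  have h := cyc_aux hD hK he0 he1 _ y (Z.rotate y hy) (hZ.rotate hy) rfl
  rwa [SimpleGraph.Walk.length_rotate] at h

theorem cyc (hD : D.Ok) (hK : 1 ≤ K) (hN : D.NoPl (200 * K)) :
    ∀ v (Z : D.N.Walk v v), Z.IsCycle → ∀ y ∈ Z.support, K * D.Rs y < Z.length :=
  cyc_of hD hK hN.e0 hN.e1

end

/-- the form of `Helper95.HH.sparse` -/
theorem sparse_of {V P Q : Type} [Finite V] [Finite P] (D : HD V P Q) (hD : D.Ok) (κ : ℕ)
    (he0 : ∀ v (Z : D.N.Walk v v), Z.IsCycle → 1024 * (κ + 1) * D.L < Z.length)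
    (he1 : ∀ v (Z : D.N.Walk v v), Z.IsCycle → ∀ y ∈ Z.support, ∀ ρ, D.L ≤ ρ → D.Free ρ y →
      1024 * (κ + 1) * ρ < Z.length) :
    ∀ v (Z : D.N.Walk v v), Z.IsCycle → ∀ y ∈ Z.support, κ * (D.Rs y + D.L) < Z.length := by
  intro v Z hZ y hy
  have h0 := he0 v Z hZ
  rcases Nat.eq_zero_or_pos κ with h | h
  · subst h
    have := hZ.three_le_length
    omega
  have hle : ∀ ρ, 200 * (2 * κ) * ρ ≤ 1024 * (κ + 1) * ρ := fun ρ =>
    Nat.mul_le_mul_right _ (by omega)
  have h1 := cyc_of (K := 2 * κ) hD (by omega) (fun v Z hZ => (hle _).trans_lt (he0 v Z hZ))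
    (fun v Z hZ y hy ρ h2 h3 => (hle _).trans_lt (he1 v Z hZ y hy ρ h2 h3)) v Z hZ y hy
  have e1 : κ * (D.Rs y + D.L) = κ * D.Rs y + κ * D.L := by ring
  have e2 : 2 * κ * D.Rs y = 2 * (κ * D.Rs y) := by ring
  have e3 : 1024 * (κ + 1) * D.L = 1024 * (κ * D.L) + 1024 * D.L := by ring
  omega

end Pool.Agent.Helper27.HH
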