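import Pool.Agent.Helper93.HH.Basic

/-!
# HH-GW: growth of the balls of `N`
-/

open Set
open Pool.Agent.Helper83.OP
open Pool.Agent.Helper93.HH Pool.Agent.Helper93.HH.HD

namespace Pool.Agent.Helper27.HH

/-! ## Balls in which short paths are unique -/

section Tree

variable {V : Type} {N : SimpleGraph V} {y : V}

theorem nr_iff {t : ℕ} {u v : V} : Nr N t u v ↔ N.Reachable u v ∧ N.dist u v ≤ t := by
  constructor
  · rintro ⟨p, hp⟩
    exact ⟨p.reachable, (SimpleGraph.dist_le p).trans hp⟩
  · rintro ⟨h, ht⟩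
    obtain ⟨p, hp⟩ := h.exists_walk_length_eq_dist
    exact ⟨p, by omega⟩

/-- paths from `y` of length at most `R` are determined by their ends -/
def UP (N : SimpleGraph V) (y : V) (R : ℕ) : Prop :=
  ∀ v (p q : N.Walk y v), p.IsPath → q.IsPath → p.length ≤ R → q.length ≤ R → p = q

theorem dist_step {v w : V} (hv : N.Reachable y v) (h : N.Adj v w) :
    N.Reachable y w ∧ N.dist y w ≤ N.dist y v + 1 := by
  obtain ⟨p, hp⟩ := hv.exists_walk_length_eq_dist
  refine ⟨hv.trans h.reachable, ?_⟩
  have := SimpleGraph.dist_le (p.concat h)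
  rw [SimpleGraph.Walk.length_concat] at this
  omega

theorem exists_par (N : SimpleGraph V) (y : V) : ∃ par : V → V, ∀ v, N.Reachable y v →
    N.dist y v ≠ 0 → N.Adj v (par v) ∧ N.Reachable y (par v) ∧
      N.dist y (par v) + 1 = N.dist y v := by
  have h : ∀ v, ∃ u, N.Reachable y v → N.dist y v ≠ 0 → N.Adj v u ∧ N.Reachable y u ∧
      N.dist y u + 1 = N.dist y v := by
    intro v
    by_cases hv : N.Reachable y v ∧ N.dist y v ≠ 0
    · obtain ⟨p, hp⟩ := hv.1.exists_walk_length_eq_dist
      obtain ⟨q, hq⟩ : ∃ q : N.Walk v y, q.length = N.dist y v :=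
        ⟨p.reverse, by rw [SimpleGraph.Walk.length_reverse, hp]⟩
      cases q with
      | nil => exact absurd (by simp) hv.2
      | cons h q' =>
        rename_i w
        refine ⟨w, fun _ _ => ⟨h, q'.reverse.reachable, ?_⟩⟩
        rw [SimpleGraph.Walk.length_cons] at hq
        have h1 := SimpleGraph.dist_le q'.reverse
        rw [SimpleGraph.Walk.length_reverse] at h1
        have h2 := (dist_step (y := y) q'.reverse.reachable h.symm).2
        omega
    · exact ⟨v, fun h1 h2 => absurd ⟨h1, h2⟩ hv⟩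
  choose par hpar using h
  exact ⟨par, hpar⟩

/-- extension of a shortest path is a path -/
theorem path_concat {v w : V} {p : N.Walk y v} (hp : p.IsPath) (hl : p.length = N.dist y v)
    (h : N.Adj v w) (hw : N.dist y v ≤ N.dist y w) : (p.concat h).IsPath := by
  classical
  refine (SimpleGraph.Walk.concat_isPath_iff h).2 ⟨hp, fun hm => ?_⟩
  have h1 := p.length_takeUntil_le_length hm
  have h2 := SimpleGraph.dist_le (p.takeUntil w hm)
  have h3 : (p.takeUntil w hm).length = p.length := by omega
  have h4 : (p.dropUntil w hm).length = 0 := by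
    have := congrArg SimpleGraph.Walk.length (p.take_spec hm)
    rw [SimpleGraph.Walk.length_append] at this
    omega
  exact h.ne (SimpleGraph.Walk.eq_of_length_eq_zero h4).symm

variable {R : ℕ}

/-- a vertex has at most one neighbour nearer to `y` -/
theorem UP.par_unique (hU : UP N y R) {v w w' : V} (hv : N.Reachable y v) (hR : N.dist y v ≤ R)
    (h : N.Adj v w) (h' : N.Adj v w') (hw : N.dist y w + 1 = N.dist y v)
    (hw' : N.dist y w' + 1 = N.dist y v) : w = w' := by
  obtain ⟨p, hp, hpl⟩ := (hv.trans h.reachable).exists_path_of_dist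
  obtain ⟨q, hq, hql⟩ := (hv.trans h'.reachable).exists_path_of_dist
  have h1 := hU v (p.concat h.symm) (q.concat h'.symm) (path_concat hp hpl h.symm (by omega))
    (path_concat hq hql h'.symm (by omega))
    (by rw [SimpleGraph.Walk.length_concat]; omega) (by rw [SimpleGraph.Walk.length_concat]; omega)
  obtain ⟨h2, -⟩ := SimpleGraph.Walk.concat_inj h1
  exact h2

/-- no edge joins two vertices at the same distance -/
theorem UP.no_flat (hU : UP N y R) {v w : V} (hv : N.Reachable y v) (hR : N.dist y v + 1 ≤ R)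
    (h : N.Adj v w) : N.dist y w ≠ N.dist y v := by
  intro he
  obtain ⟨p, hp, hpl⟩ := hv.exists_path_of_dist
  obtain ⟨q, hq, hql⟩ := (hv.trans h.reachable).exists_path_of_dist
  have h1 := hU w q (p.concat h) hq (path_concat hp hpl h (by omega)) (by omega)
    (by rw [SimpleGraph.Walk.length_concat]; omega)
  have h2 := congrArg SimpleGraph.Walk.length h1
  rw [SimpleGraph.Walk.length_concat] at h2
  omega

/-- the other neighbours of a vertex are its children -/
theorem UP.child (hU : UP N y R) {par : V → V} (hpar : ∀ v, N.Reachable y v →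
    N.dist y v ≠ 0 → N.Adj v (par v) ∧ N.Reachable y (par v) ∧
      N.dist y (par v) + 1 = N.dist y v) {v w : V} (hv : N.Reachable y v)
    (hR : N.dist y v + 1 ≤ R) (h : N.Adj v w) (hne : N.dist y v ≠ 0 → w ≠ par v) :
    N.Reachable y w ∧ N.dist y w = N.dist y v + 1 ∧ par w = v := by
  obtain ⟨h1, h2⟩ := dist_step hv h
  have h3 := (dist_step h1 h.symm).2
  have h4 := hU.no_flat hv hR h
  have h5 : N.dist y w = N.dist y v + 1 := by
    by_contra hcon
    have h6 : N.dist y w + 1 = N.dist y v := by omega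
    obtain ⟨h7, -, h8⟩ := hpar v hv (by omega)
    exact hne (by omega) (hU.par_unique hv (by omega) h h7 h6 h8)
  obtain ⟨h7, -, h8⟩ := hpar w h1 (by omega)
  exact ⟨h1, h5, hU.par_unique h1 (by omega) h7 h.symm h8 h5.symm⟩

end Tree

/-! ## The balls of `N` -/

section

variable {V P Q : Type} [Finite V] [Finite P] [Finite Q] {D : HD V P Q}

omit [Finite Q] in
theorem up_of (hc : ∀ v (Z : D.N.Walk v v), Z.IsCycle → ∀ y ∈ Z.support, 10 * D.Rs y < Z.length)
    (y : V) : UP D.N y (D.Rs y) := by
  intro v p q hp hq hpl hql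
  by_contra hne
  obtain ⟨u, z, p', q', ⟨a, b, hab⟩, ⟨a', b', hab'⟩, hcyc⟩ := hp.exists_isCycle_of_ne hq hne
  have h1 := congrArg SimpleGraph.Walk.length hab
  have h2 := congrArg SimpleGraph.Walk.length hab'
  rw [SimpleGraph.Walk.length_append, SimpleGraph.Walk.length_append] at h1 h2
  have h3 := hc _ _ hcyc u (SimpleGraph.Walk.start_mem_support _)
  rw [SimpleGraph.Walk.length_append, SimpleGraph.Walk.length_reverse] at h3
  have h4 := D.Rs_lip (Nr.of_walk a)
  have h5 := D.Rs_lip (Nr.of_walk a')
  omega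

/-- the vertices at distance `t` from `y` -/
def sph (D : HD V P Q) (y : V) (t : ℕ) : Set V := {v | D.N.Reachable y v ∧ D.N.dist y v = t}

omit [Finite V] [Finite P] [Finite Q] in
theorem ball_eq (y : V) (t : ℕ) : D.ball t y = {v | D.N.Reachable y v ∧ D.N.dist y v ≤ t} := by
  ext v
  exact nr_iff

/-- number of pins in a set of vertices -/
noncomputable def pins (D : HD V P Q) (S : Set V) : ℕ := {p | D.x p ∈ S}.ncard

omit [Finite V] [Finite Q] in
theorem pins_mono {S T : Set V} (h : S ⊆ T) : pins D S ≤ pins D T :=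
  Set.ncard_le_ncard (fun _ hp => h hp) (Set.toFinite _)

omit [Finite Q] in
theorem pins_union {S T : Set V} (h : Disjoint S T) : pins D (S ∪ T) = pins D S + pins D T := by
  unfold pins
  rw [← Set.ncard_union_eq (s := {p | D.x p ∈ S}) (t := {p | D.x p ∈ T}) ?_ (Set.toFinite _)
    (Set.toFinite _)]
  · rfl
  · rw [Set.disjoint_left]
    intro p hp hp'
    exact Set.disjoint_left.1 h hp hp'

omit [Finite Q] in
theorem pins_sum (S : Set V) : pins D S = ∑ v ∈ (Set.toFinite S).toFinset, D.pn v := by
  classical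
  have := Fintype.ofFinite P
  have h1 : ∀ v, D.pn v = (Finset.univ.filter fun p => D.x p = v).card := by
    intro v
    rw [HD.pn, ← Set.ncard_coe_finset]
    congr 1
    ext p
    simp
  have h2 : pins D S = (Finset.univ.filter fun p => D.x p ∈ S).card := by
    rw [pins, ← Set.ncard_coe_finset]
    congr 1
    ext p
    simp
  rw [h2, Finset.card_eq_sum_card_fiberwise (f := D.x) (t := (Set.toFinite S).toFinset)]
  · refine Finset.sum_congr rfl fun v hv => ?_
    rw [h1]
    congr 1
    ext p
    simp only [Finset.mem_filter, Finset.mem_univ, true_and]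
    rw [Set.Finite.mem_toFinset] at hv
    constructor
    · exact fun h => h.2
    · exact fun h => ⟨by rw [h]; exact hv, h⟩
  · intro p hp
    simp only [Finset.coe_filter, Finset.mem_univ, true_and, Set.mem_ofPred_eq] at hp
    rw [Set.Finite.coe_toFinset]
    exact hp

omit [Finite P] [Finite Q] in
theorem vol_union {S T : Set V} (h : Disjoint S T) : D.vol (S ∪ T) = D.vol S + D.vol T := by
  classical
  unfold HD.vol
  rw [← Finset.sum_union]
  · refine Finset.sum_congr ?_ fun _ _ => rfl
    ext v
    simp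
  · rw [Finset.disjoint_left]
    intro v hv hv'
    rw [Set.Finite.mem_toFinset] at hv hv'
    exact Set.disjoint_left.1 h hv hv'

omit [Finite V] [Finite P] [Finite Q] in
theorem ball_succ (y : V) (t : ℕ) : D.ball (t + 1) y = D.ball t y ∪ sph D y (t + 1) := by
  rw [ball_eq, ball_eq]
  ext v
  simp only [sph, Set.mem_union, Set.mem_ofPred_eq]
  constructor
  · rintro ⟨h1, h2⟩
    rcases Nat.lt_or_ge t (D.N.dist y v) with h | h
    · exact Or.inr ⟨h1, by omega⟩
    · exact Or.inl ⟨h1, h⟩
  · rintro (⟨h1, h2⟩ | ⟨h1, h2⟩)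
    · exact ⟨h1, by omega⟩
    · exact ⟨h1, by omega⟩

omit [Finite V] [Finite P] [Finite Q] in
theorem ball_sph_disj (y : V) (t : ℕ) : Disjoint (D.ball t y) (sph D y (t + 1)) := by
  rw [ball_eq, Set.disjoint_left]
  rintro v ⟨-, h1⟩ ⟨-, h2⟩
  omega

omit [Finite V] [Finite P] [Finite Q] in
theorem ball_zero (y : V) : D.ball 0 y = {y} := by
  ext v
  constructor
  · intro h
    exact (Nr.eq h).symm
  · rintro rfl
    exact Nr.refl _ _ _

/-- spheres are at least as large as the volume of the ball inside -/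
theorem sph_ge (hD : D.Ok) {y : V} (hy : y ∈ D.VN) {R : ℕ} (hU : UP D.N y R) :
    ∀ t, t < R → 2 + D.vol (D.ball t y) ≤ (sph D y (t + 1)).ncard + pins D (D.ball t y) := by
  classical
  obtain ⟨par, hpar⟩ := exists_par D.N y
  intro t
  induction t with
  | zero =>
    intro hR
    have h1 : D.N.neighborSet y ⊆ sph D y (0 + 1) := by
      intro w hw
      have hw' : D.N.Adj y w := hw
      refine ⟨hw'.reachable, ?_⟩
      rw [SimpleGraph.dist_eq_one_iff_adj.2 hw']
    have h2 := Set.ncard_le_ncard h1 (Set.toFinite _)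
    have h3 := hD.two y hy
    have h4 : D.vol (D.ball 0 y) = D.dg y - 2 := by
      unfold HD.vol
      have : (Set.toFinite (D.ball 0 y)).toFinset = {y} := by
        ext v
        rw [Set.Finite.mem_toFinset, ball_zero]
        simp
      rw [this, Finset.sum_singleton]
    have h5 : pins D (D.ball 0 y) = D.pn y := by
      rw [ball_zero]
      rfl
    have h6 : (D.N.neighborSet y).ncard = deg D.N y := rfl
    have h7 : D.dg y = deg D.N y + D.pn y := rfl
    omega
  | succ t ih =>
    intro hR
    have h0 := ih (by omega)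
    rw [ball_succ, vol_union (ball_sph_disj y t), pins_union (ball_sph_disj y t)]
    have hS : ∀ v ∈ (Set.toFinite (sph D y (t + 1))).toFinset, v ∈ sph D y (t + 1) := by
      intro v hv
      rwa [Set.Finite.mem_toFinset] at hv
    have hcard : (sph D y (t + 1)).ncard = (Set.toFinite (sph D y (t + 1))).toFinset.card :=
      Set.ncard_eq_toFinset_card _ _
    -- the children
    have h1 : ∑ v ∈ (Set.toFinite (sph D y (t + 1))).toFinset, (deg D.N v - 1) ≤
        (sph D y (t + 1 + 1)).ncard := by
      have h2 : ∀ v ∈ (Set.toFinite (sph D y (t + 1))).toFinset,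
          deg D.N v - 1 ≤ ((Set.toFinite (sph D y (t + 1 + 1))).toFinset.filter
            fun w => par w = v).card := by
        intro v hv
        obtain ⟨hv1, hv2⟩ := hS v hv
        have h3 : D.N.neighborSet v \ {par v} ⊆
            (((Set.toFinite (sph D y (t + 1 + 1))).toFinset.filter
              fun w => par w = v : Finset V) : Set V) := by
          rintro w ⟨hw, hne⟩
          obtain ⟨c1, c2, c3⟩ := hU.child hpar hv1 (by omega) hw (fun _ => hne)
          rw [Finset.mem_coe, Finset.mem_filter, Set.Finite.mem_toFinset]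
          exact ⟨⟨c1, by omega⟩, c3⟩
        have h4 := Set.ncard_le_ncard h3 (Set.toFinite _)
        rw [Set.ncard_coe_finset] at h4
        obtain ⟨p1, -, -⟩ := hpar v hv1 (by omega)
        rw [Set.ncard_sdiff_singleton_of_mem (show par v ∈ D.N.neighborSet v from p1)] at h4
        exact h4
      have h5 := Finset.sum_le_sum h2
      rw [Set.ncard_eq_toFinset_card (sph D y (t + 1 + 1)) (Set.toFinite _)]
      refine h5.trans ?_
      have hmaps : ((Set.toFinite (sph D y (t + 1 + 1))).toFinset : Set V).MapsTo par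
          ((Set.toFinite (sph D y (t + 1))).toFinset : Set V) := by
        intro w hw
        rw [Finset.mem_coe, Set.Finite.mem_toFinset] at hw
        rw [Finset.mem_coe, Set.Finite.mem_toFinset]
        obtain ⟨-, c1, c2⟩ := hpar w hw.1 (by have := hw.2; omega)
        exact ⟨c1, by have := hw.2; omega⟩
      exact (Finset.card_eq_sum_card_fiberwise hmaps).symm.le
    have h2 : D.vol (sph D y (t + 1)) + (sph D y (t + 1)).ncard ≤
        (∑ v ∈ (Set.toFinite (sph D y (t + 1))).toFinset, (deg D.N v - 1)) +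
          pins D (sph D y (t + 1)) := by
      rw [hcard, pins_sum, HD.vol, Finset.card_eq_sum_ones, ← Finset.sum_add_distrib,
        ← Finset.sum_add_distrib]
      refine Finset.sum_le_sum fun v hv => ?_
      obtain ⟨hv1, hv2⟩ := hS v hv
      have h3 := hD.two v (VN_of_nr (nr_iff.2 ⟨hv1, le_rfl⟩) hy)
      have h4 : D.dg v = deg D.N v + D.pn v := rfl
      obtain ⟨p1, -, -⟩ := hpar v hv1 (by omega)
      have h5 : 1 ≤ deg D.N v := (Set.ncard_pos (Set.toFinite _)).2 ⟨par v, p1⟩
      omega
    omega

/-- the volume at least doubles every `L` steps -/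
theorem vol_step (hD : D.Ok) {y : V} (hy : y ∈ D.VN) {R : ℕ} (hU : UP D.N y R) (t : ℕ)
    (ht : t + D.L < R) :
    D.vol (D.ball t y) + (sph D y (t + 1)).ncard ≤ D.vol (D.ball (t + D.L) y) := by
  classical
  obtain ⟨par, hpar⟩ := exists_par D.N y
  have hL := hD.r_le
  have hr := hD.r_pos
  -- vertices with `dg = 2` have a child
  have hch : ∀ v, D.N.Reachable y v → D.N.dist y v ≠ 0 → D.N.dist y v + 1 ≤ R → D.dg v = 2 →
      ∃ w, D.N.Adj v w ∧ D.N.Reachable y w ∧ D.N.dist y w = D.N.dist y v + 1 ∧ par w = v := by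
    intro v h1 h2 h3 h4
    have h5 : D.pn v = 0 := by
      by_contra h0
      have : {p | D.x p = v}.Nonempty := by
        rw [Set.nonempty_iff_ne_empty]
        intro he
        apply h0
        rw [HD.pn, he, Set.ncard_empty]
      obtain ⟨p, hp⟩ := this
      have := hD.three p
      rw [show D.x p = v from hp] at this
      omega
    have h6 : deg D.N v = 2 := by
      have : D.dg v = deg D.N v + D.pn v := rfl
      omega
    have h7 : ∃ w ∈ D.N.neighborSet v, w ≠ par v := by
      by_contra hcon
      push Not at hcon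
      have h8 : D.N.neighborSet v ⊆ {par v} := fun w hw => hcon w hw
      have h9 := Set.ncard_le_ncard h8 (Set.toFinite _)
      rw [Set.ncard_singleton] at h9
      unfold deg at h6
      omega
    obtain ⟨w, hw, hne⟩ := h7
    obtain ⟨c1, c2, c3⟩ := hU.child hpar h1 h3 hw (fun _ => hne)
    exact ⟨w, hw, c1, c2, c3⟩
  -- every vertex of the sphere has a branch vertex below
  have hkey : ∀ v ∈ sph D y (t + 1), ∀ k, k + 1 ≤ D.L →
      (∃ z i, i ≤ k ∧ D.N.Reachable y z ∧ D.N.dist y z = t + 1 + i ∧ par^[i] z = v ∧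
        3 ≤ D.dg z) ∨
      ∃ z, ∃ W : D.N.Walk z v, W.IsPath ∧ W.length = k ∧ D.N.Reachable y z ∧
        D.N.dist y z = t + 1 + k ∧ par^[k] z = v ∧
        ∀ u ∈ W.support, D.dg u = 2 ∧ D.N.dist y u ≤ t + 1 + k := by
    rintro v ⟨hv1, hv2⟩ k
    have hvd := hD.two v (VN_of_nr (nr_iff.2 ⟨hv1, le_rfl⟩) hy)
    induction k with
    | zero =>
      intro _
      rcases Nat.lt_or_ge (D.dg v) 3 with h | h
      · right
        refine ⟨v, SimpleGraph.Walk.nil, SimpleGraph.Walk.IsPath.nil, rfl, hv1, hv2, rfl, ?_⟩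
        intro u hu
        rw [SimpleGraph.Walk.support_nil, List.mem_singleton] at hu
        rw [hu]
        exact ⟨by omega, by omega⟩
      · left
        exact ⟨v, 0, le_rfl, hv1, hv2, rfl, h⟩
    | succ k ih =>
      intro hk
      rcases ih (by omega) with ⟨z, i, hi, h1⟩ | ⟨z, W, hW, hWl, h1, h2, h3, h4⟩
      · left
        exact ⟨z, i, by omega, h1⟩
      · obtain ⟨w, hzw, w1, w2, w3⟩ := hch z h1 (by omega) (by omega)
          (h4 z W.start_mem_support).1
        have hwd := hD.two w (VN_of_nr (nr_iff.2 ⟨w1, le_rfl⟩) hy)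
        have hit : par^[k + 1] w = v := by
          rw [Function.iterate_succ_apply, w3, h3]
        rcases Nat.lt_or_ge (D.dg w) 3 with h | h
        · right
          refine ⟨w, SimpleGraph.Walk.cons hzw.symm W, ?_, ?_, w1, by omega, hit, ?_⟩
          · rw [SimpleGraph.Walk.cons_isPath_iff]
            refine ⟨hW, fun hm => ?_⟩
            have := (h4 w hm).2
            omega
          · rw [SimpleGraph.Walk.length_cons, hWl]
          · intro u hu
            rw [SimpleGraph.Walk.support_cons, List.mem_cons] at hu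
            rcases hu with hu | hu
            · rw [hu]
              exact ⟨by omega, by omega⟩
            · have := h4 u hu
              exact ⟨this.1, by omega⟩
        · left
          exact ⟨w, k + 1, le_rfl, w1, by omega, hit, h⟩
  have hbr : ∀ v, ∃ z, v ∈ sph D y (t + 1) → ∃ i, i + 1 ≤ D.L ∧ D.N.Reachable y z ∧
      D.N.dist y z = t + 1 + i ∧ par^[i] z = v ∧ 3 ≤ D.dg z := by
    intro v
    by_cases hv : v ∈ sph D y (t + 1)
    · rcases hkey v hv (D.L - 1) (by omega) with ⟨z, i, hi, h1⟩ | ⟨z, W, hW, hWl, -, -, -, h4⟩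
      · exact ⟨z, fun _ => ⟨i, by omega, h1⟩⟩
      · exfalso
        have := hD.thr_le _ _ W hW (fun u hu => (h4 u hu).1)
        omega
    · exact ⟨v, fun h => absurd h hv⟩
  choose z hz using hbr
  -- injectivity
  have hinj : Set.InjOn z (sph D y (t + 1)) := by
    intro v hv v' hv' he
    obtain ⟨i, -, -, h2, h3, -⟩ := hz v hv
    obtain ⟨i', -, -, h2', h3', -⟩ := hz v' hv'
    rw [he] at h2 h3
    have : i = i' := by omega
    rw [← h3, this, h3']
  have himg : (z '' sph D y (t + 1)).ncard = (sph D y (t + 1)).ncard :=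
    Set.InjOn.ncard_image hinj
  have hdisj : Disjoint (D.ball t y) (z '' sph D y (t + 1)) := by
    rw [Set.disjoint_left, ball_eq]
    rintro _ ⟨-, h1⟩ ⟨v, hv, rfl⟩
    obtain ⟨i, -, -, h2, -⟩ := hz v hv
    omega
  have hsub : D.ball t y ∪ z '' sph D y (t + 1) ⊆ D.ball (t + D.L) y := by
    rintro u (hu | ⟨v, hv, rfl⟩)
    · exact D.ball_mono (by omega) y hu
    · obtain ⟨i, hi, h1, h2, -⟩ := hz v hv
      rw [ball_eq]
      exact ⟨h1, by omega⟩
  have h1 := D.vol_mono hsub
  rw [vol_union hdisj] at h1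
  have h2 : (z '' sph D y (t + 1)).ncard ≤ D.vol (z '' sph D y (t + 1)) := by
    rw [Set.ncard_eq_toFinset_card _ (Set.toFinite _), HD.vol, Finset.card_eq_sum_ones]
    refine Finset.sum_le_sum fun u hu => ?_
    rw [Set.Finite.mem_toFinset] at hu
    obtain ⟨v, hv, rfl⟩ := hu
    obtain ⟨i, -, -, -, -, h3⟩ := hz v hv
    omega
  omega

theorem growth {K : ℕ} (hD : D.Ok)
    (_hK : 10 ≤ K) (_hN : D.NoPl K)
    (hc : ∀ v (Z : D.N.Walk v v), Z.IsCycle → ∀ y ∈ Z.support, 10 * D.Rs y < Z.length) :
    ∀ y ∈ D.VN, D.Rs y ≤ D.L * (Nat.log 2 (D.n0 + 2) + 10) := by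
  classical
  intro y hy
  have hU := up_of hc y
  have hL := hD.r_le
  have hr := hD.r_pos
  have hsg := D.Rs_le_sg y
  have hRv := D.Rs_le_Rv y
  -- at most two pins
  have hpins : ∀ t, t < D.Rs y → pins D (D.ball t y) ≤ 2 := by
    intro t ht
    exact D.sg_min (t := t) (y := y) (by omega)
  -- doubling
  have hdbl : ∀ t, t + D.L < D.Rs y → 2 * D.vol (D.ball t y) ≤ D.vol (D.ball (t + D.L) y) := by
    intro t ht
    have h1 := sph_ge hD hy hU t (by omega)
    have h2 := vol_step hD hy hU t ht
    have h3 := hpins t (by omega)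
    omega
  have hpow : ∀ k, D.L * (k + 1) < D.Rs y → 2 ^ k ≤ D.vol (D.ball (D.L * (k + 1)) y) := by
    intro k
    induction k with
    | zero =>
      intro h
      rw [Nat.zero_add, Nat.mul_one] at h ⊢
      have h1 := sph_ge hD hy hU 0 (by omega)
      have h2 := vol_step hD hy hU 0 (by omega)
      simp only [Nat.zero_add] at h1 h2
      rw [pow_zero]
      rcases Nat.eq_zero_or_pos (pins D (D.ball 0 y)) with h3 | h3
      · omega
      · -- a pin at `y`
        have h4 : (D.vol (D.ball 0 y)) = D.dg y - 2 := by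
          unfold HD.vol
          have : (Set.toFinite (D.ball 0 y)).toFinset = {y} := by
            ext v
            rw [Set.Finite.mem_toFinset, ball_zero]
            simp
          rw [this, Finset.sum_singleton]
        have h5 : 3 ≤ D.dg y := by
          unfold pins at h3
          obtain ⟨p, hp⟩ := (Set.ncard_pos (Set.toFinite _)).1 h3
          have h6 : D.x p ∈ D.ball 0 y := hp
          rw [ball_zero, Set.mem_singleton_iff] at h6
          rw [← h6]
          exact hD.three p
        omega
    | succ k ih =>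
      intro h
      have e1 : D.L * (k + 1 + 1) = D.L * (k + 1) + D.L := by ring
      rw [e1] at h ⊢
      have h1 := ih (by omega)
      have h2 := hdbl _ h
      rw [pow_succ]
      omega
  obtain ⟨k, hk⟩ : ∃ k, k = (D.Rs y - 1) / D.L := ⟨_, rfl⟩
  have h1 : D.L * k ≤ D.Rs y - 1 := by rw [hk]; exact Nat.mul_div_le _ _
  have h2 : D.Rs y - 1 < D.L * (k + 1) := by
    rw [hk]
    exact Nat.lt_mul_div_succ _ (by omega)
  have h3 : k ≤ Nat.log 2 (D.n0 + 2) + 1 := by
    rcases Nat.eq_zero_or_pos k with h0 | h0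
    · omega
    · obtain ⟨j, rfl⟩ : ∃ j, k = j + 1 := ⟨k - 1, by omega⟩
      have h4 : D.L * (j + 1) < D.Rs y := by
        have : 0 < D.L * (j + 1) := Nat.mul_pos (by omega) (by omega)
        omega
      have h5 := hpow j h4
      have h6 := D.Rv_min (y := y) (t := D.L * (j + 1)) (by omega)
      have h7 : j ≤ Nat.log 2 (D.n0 + 2) := Nat.le_log_of_pow_le one_lt_two (by omega)
      omega
  have h4 : D.L * (k + 1) ≤ D.L * (Nat.log 2 (D.n0 + 2) + 2) := Nat.mul_le_mul_left _ (by omega)
  have h5 : D.L * (Nat.log 2 (D.n0 + 2) + 2) ≤ D.L * (Nat.log 2 (D.n0 + 2) + 10) :=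
    Nat.mul_le_mul_left _ (by omega)
  omega

end

end Pool.Agent.Helper27.HH
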